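import Mathlib

/-!
# Tools for `Ext` in module categories, phrased for unbundled modules
-/

universe u v

namespace Pool.Agent.X277

open CategoryTheory Abelian

variable {R : Type u} [Ring R] [Small.{v} R]
variable {K P M N : Type v} [AddCommGroup K] [Module R K] [AddCommGroup P] [Module R P]
  [AddCommGroup M] [Module R M] [AddCommGroup N] [Module R N]

/-- The short complex attached to `K → P → M`. -/
abbrev sc (f : K →ₗ[R] P) (g : P →ₗ[R] M) (h : g ∘ₗ f = 0) : ShortComplex (ModuleCat.{v} R) :=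
  ShortComplex.mk (ModuleCat.ofHom f) (ModuleCat.ofHom g)
    (by rw [← ModuleCat.ofHom_comp, h]; rfl)

omit [Small.{v} R] in
lemma sc_shortExact (f : K →ₗ[R] P) (g : P →ₗ[R] M) (hf : Function.Injective f)
    (hg : Function.Surjective g) (hfg : Function.Exact f g) :
    (sc f g (by ext x; exact hfg.apply_apply_eq_zero x)).ShortExact := by
  have h0 : g ∘ₗ f = 0 := by ext x; exact hfg.apply_apply_eq_zero x
  exact { exact := by
            rw [ShortComplex.moduleCat_exact_iff]
            intro x hx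
            exact (hfg x).1 hx
          mono_f := (ModuleCat.mono_iff_injective _).2 hf
          epi_g := (ModuleCat.epi_iff_surjective _).2 hg }

theorem subsingleton_ext_one_of_extend (f : K →ₗ[R] P) (g : P →ₗ[R] M)
    (hf : Function.Injective f) (hg : Function.Surjective g) (hfg : Function.Exact f g)
    [Module.Projective R P]
    (h : ∀ φ : K →ₗ[R] N, ∃ ψ : P →ₗ[R] N, ψ ∘ₗ f = φ) :
    Subsingleton (Ext (ModuleCat.of R M) (ModuleCat.of R N) 1) := by
  have hS := sc_shortExact f g hf hg hfg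
  refine subsingleton_of_forall_eq 0 fun x => ?_
  have : Projective (ModuleCat.of R P) := IsProjective.iff_projective P |>.1 inferInstance
  obtain ⟨y, hy⟩ := Ext.contravariant_sequence_exact₃ hS (ModuleCat.of R N) x
    (@Ext.eq_zero_of_projective _ _ _ _ (ModuleCat.of R P) _ 0 this _) (add_zero 1)
  obtain ⟨φ, rfl⟩ := (Ext.mk₀_bijective _ _).2 y
  obtain ⟨ψ, hψ⟩ := h φ.hom
  have : φ = (sc f g (by ext x; exact hfg.apply_apply_eq_zero x)).f ≫ ModuleCat.ofHom ψ := by
    ext z
    have := LinearMap.congr_fun hψ z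
    exact this.symm
  rw [← hy, this, ← Ext.mk₀_comp_mk₀]
  exact hS.extClass_comp_assoc (Ext.mk₀ _) (h := rfl)

theorem exists_section_of_ext_one (f : N →ₗ[R] P) (g : P →ₗ[R] M)
    (hf : Function.Injective f) (hg : Function.Surjective g) (hfg : Function.Exact f g)
    (h : Subsingleton (Ext (ModuleCat.of R M) (ModuleCat.of R N) 1)) :
    ∃ s : M →ₗ[R] P, g ∘ₗ s = LinearMap.id := by
  have hS := sc_shortExact f g hf hg hfg
  obtain ⟨y, hy⟩ := Ext.covariant_sequence_exact₃ (ModuleCat.of R M) hS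
    (Ext.mk₀ (𝟙 (ModuleCat.of R M))) (zero_add 1) (h.elim _ _)
  obtain ⟨s, rfl⟩ := (Ext.mk₀_bijective _ _).2 y
  rw [Ext.mk₀_comp_mk₀] at hy
  have := (Ext.mk₀_bijective _ _).1 hy
  refine ⟨s.hom, ?_⟩
  ext z
  exact congrArg (fun t => t.hom z) this

theorem extend_of_subsingleton_ext_one (f : K →ₗ[R] P) (g : P →ₗ[R] M)
    (hf : Function.Injective f) (hg : Function.Surjective g) (hfg : Function.Exact f g)
    (h : Subsingleton (Ext (ModuleCat.of R M) (ModuleCat.of R N) 1)) (φ : K →ₗ[R] N) :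
    ∃ ψ : P →ₗ[R] N, ψ ∘ₗ f = φ := by
  have hS := sc_shortExact f g hf hg hfg
  obtain ⟨y, hy⟩ := Ext.contravariant_sequence_exact₁ hS (ModuleCat.of R N)
    (Ext.mk₀ (ModuleCat.ofHom φ)) (add_zero 1) (h.elim _ _)
  obtain ⟨s, rfl⟩ := (Ext.mk₀_bijective _ _).2 y
  rw [Ext.mk₀_comp_mk₀] at hy
  have := (Ext.mk₀_bijective _ _).1 hy
  refine ⟨s.hom, ?_⟩
  ext z
  exact congrArg (fun t => t.hom z) this

end Pool.Agent.X277
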